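import Pool.Agent.H38.RK.Main

/-!
# MP_436001_gt: infinitely many forms with the properties of an exterior form

Let `Λ = ℤ[t, t⁻¹]` and `k ≥ 2`. There are infinitely many pairwise non-isometric Hermitian
unimodular forms `λ` of rank `k` over `Λ` with `λ(1) ≅ <1>^k` and
`λ + H₂ ≅ <1>^k + H₂`, none of which is isometric to `<1>^k`.
-/

set_option autoImplicit false
open LaurentPolynomial
open scoped Matrix

namespace Pool.Agent.Results.MP_436001_gt.InfinitelyManyForms

/-- The ring `Λ` of integral Laurent polynomials; `t` is `T 1`. -/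
abbrev Lam : Type := LaurentPolynomial ℤ

/-- The involution `t ↦ t⁻¹`. -/
noncomputable def bar : Lam →+* Lam :=
  (LaurentPolynomial.invert (R := ℤ)).toRingEquiv.toRingHom

/-- The augmentation `t ↦ 1`. -/
noncomputable def aug : Lam →+* ℤ :=
  LaurentPolynomial.eval₂ (RingHom.id ℤ) (1 : ℤˣ)

/-- Hermitian matrices. -/
def IsHermitianForm {n : Type} (L : Matrix n n Lam) : Prop := (L.map bar)ᵀ = L

/-- The forms over `Λ` with Gram matrices `A` and `B` are isometric. -/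
def Isometric {m n : Type} [Fintype m] [Fintype n] [DecidableEq m] [DecidableEq n]
    (A : Matrix m m Lam) (B : Matrix n n Lam) : Prop :=
  ∃ (P : Matrix m n Lam) (P' : Matrix n m Lam),
    P * P' = 1 ∧ P' * P = 1 ∧ (P.map bar)ᵀ * A * P = B

/-- The forms over the integers with Gram matrices `A` and `B` are isometric. -/
def IsometricZ {m n : Type} [Fintype m] [Fintype n] [DecidableEq m] [DecidableEq n]
    (A : Matrix m m ℤ) (B : Matrix n n ℤ) : Prop :=
  ∃ (P : Matrix m n ℤ) (P' : Matrix n m ℤ), P * P' = 1 ∧ P' * P = 1 ∧ Pᵀ * A * P = B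

/-- The orthogonal sum. -/
noncomputable def oplus {m n : Type} (A : Matrix m m Lam) (B : Matrix n n Lam) :
    Matrix (m ⊕ n) (m ⊕ n) Lam := Matrix.fromBlocks A 0 0 B

/-- The form `H₂`. -/
noncomputable def H2 : Matrix (Fin 2) (Fin 2) Lam := !![0, T 1 - 1; T (-1) - 1, 0]

/-- The form of rank two with parameter `g = t ^ N - t ^ (-N)`, where `N = 11 ^ n`. -/
noncomputable def F2 (n : ℕ) : Matrix (Fin 2) (Fin 2) Lam :=
  Pool.Agent.H38.RK.Gf (Pool.Agent.H38.RK.gg (11 ^ n))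

/-- The form of the family of rank `2 + m`. -/
noncomputable def F (m : ℕ) (n : ℕ) : Matrix (Fin (2 + m)) (Fin (2 + m)) Lam :=
  (Matrix.fromBlocks (F2 n) 0 0
    (1 : Matrix (Fin m) (Fin m) Lam)).submatrix finSumFinEquiv.symm finSumFinEquiv.symm

/-- The integral matrix diagonalising the augmentation. -/
def G : Matrix (Fin 2) (Fin 2) ℤ := !![-3, 4; 1, -1]

/-- Its inverse. -/
def G' : Matrix (Fin 2) (Fin 2) ℤ := !![1, 4; 1, 3]

theorem G_mul : G * G' = 1 := by decide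

theorem G_iso : Gᵀ * Pool.Agent.H38.RK.Gf (0 : ℤ) * G = 1 := by decide

theorem F2_herm (n : ℕ) : ((F2 n).map bar)ᵀ = F2 n := by
  have hg : bar (Pool.Agent.H38.RK.gg (11 ^ n)) = -Pool.Agent.H38.RK.gg (11 ^ n) :=
    Pool.Agent.H38.RK.inv_gg _
  apply Matrix.ext
  intro i j
  fin_cases i <;> fin_cases j <;> simp [F2, Pool.Agent.H38.RK.Gf, hg, map_ofNat] <;> ring

theorem F2_aug (n : ℕ) : (F2 n).map aug = Pool.Agent.H38.RK.Gf 0 := by
  have hg : aug (Pool.Agent.H38.RK.gg (11 ^ n)) = 0 := Pool.Agent.H38.RK.aug_gg _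
  ext i j
  fin_cases i <;> fin_cases j <;> simp [F2, Pool.Agent.H38.RK.Gf, hg, map_ofNat]

theorem F_isom (m n : ℕ) : Isometric (F m n)
    (Matrix.fromBlocks (F2 n) 0 0 (1 : Matrix (Fin m) (Fin m) Lam)) :=
  Pool.Agent.H38.RK.Isom.reindex Pool.Agent.H38.HT.inv finSumFinEquiv.symm _

theorem one_isom (m : ℕ) : Isometric (1 : Matrix (Fin (2 + m)) (Fin (2 + m)) Lam)
    (Matrix.fromBlocks 1 0 0 1 : Matrix (Fin 2 ⊕ Fin m) (Fin 2 ⊕ Fin m) Lam) := by
  have h := Pool.Agent.H38.RK.Isom.reindex Pool.Agent.H38.HT.inv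
    (finSumFinEquiv (m := 2) (n := m)).symm
    (1 : Matrix (Fin 2 ⊕ Fin m) (Fin 2 ⊕ Fin m) Lam)
  rw [Matrix.submatrix_one_equiv] at h
  rw [Matrix.fromBlocks_one]
  exact h

theorem F_herm (m n : ℕ) : IsHermitianForm (F m n) := by
  unfold IsHermitianForm F
  rw [← Matrix.submatrix_map, Matrix.transpose_submatrix, Matrix.fromBlocks_map,
    Matrix.fromBlocks_transpose]
  have h1 : ((0 : Matrix (Fin m) (Fin 2) Lam).map bar)ᵀ = 0 := by
    ext1 i j
    simp
  have h2 : ((0 : Matrix (Fin 2) (Fin m) Lam).map bar)ᵀ = 0 := by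
    ext1 i j
    simp
  have h3 : ((1 : Matrix (Fin m) (Fin m) Lam).map bar)ᵀ = 1 := by simp
  rw [h1, h2, h3, F2_herm]

theorem F_unit (m n : ℕ) : IsUnit (F m n).det := by
  unfold F
  rw [Matrix.det_submatrix_equiv_self, Matrix.det_fromBlocks_zero₂₁, Matrix.det_one, mul_one]
  have h := congrArg Matrix.det
    (Pool.Agent.H38.RK.Gf_mul (Pool.Agent.H38.RK.gg (11 ^ n)))
  rw [Matrix.det_mul, Matrix.det_one] at h
  exact IsUnit.of_mul_eq_one _ h

theorem F_aug (m n : ℕ) :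
    IsometricZ ((F m n).map aug) (1 : Matrix (Fin (2 + m)) (Fin (2 + m)) ℤ) := by
  have h0 : (F m n).map aug = (Matrix.fromBlocks (Pool.Agent.H38.RK.Gf (0 : ℤ)) 0 0
      (1 : Matrix (Fin m) (Fin m) ℤ)).submatrix finSumFinEquiv.symm finSumFinEquiv.symm := by
    unfold F
    rw [← Matrix.submatrix_map, Matrix.fromBlocks_map, F2_aug]
    congr 1
    simp
  rw [h0]
  let e : Fin (2 + m) ≃ Fin 2 ⊕ Fin m := finSumFinEquiv.symm
  refine ⟨(Matrix.fromBlocks G 0 0 1).submatrix e e, (Matrix.fromBlocks G' 0 0 1).submatrix e e,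
    ?_, ?_, ?_⟩
  · rw [← Matrix.submatrix_mul _ _ e e e e.bijective, Matrix.fromBlocks_multiply]
    simp [G_mul]
  · rw [← Matrix.submatrix_mul _ _ e e e e.bijective, Matrix.fromBlocks_multiply]
    simp [mul_eq_one_comm.mp G_mul]
  · rw [Matrix.transpose_submatrix, ← Matrix.submatrix_mul _ _ e e e e.bijective,
      ← Matrix.submatrix_mul _ _ e e e e.bijective, Matrix.fromBlocks_transpose,
      Matrix.fromBlocks_multiply, Matrix.fromBlocks_multiply]
    simp [G_iso]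

/-- The reordering of the summands. -/
def reord (m : ℕ) : (Fin 2 ⊕ Fin m) ⊕ Fin 2 ≃ (Fin 2 ⊕ Fin 2) ⊕ Fin m where
  toFun := fun x => match x with
    | Sum.inl (Sum.inl i) => Sum.inl (Sum.inl i)
    | Sum.inl (Sum.inr i) => Sum.inr i
    | Sum.inr i => Sum.inl (Sum.inr i)
  invFun := fun x => match x with
    | Sum.inl (Sum.inl i) => Sum.inl (Sum.inl i)
    | Sum.inl (Sum.inr i) => Sum.inr i
    | Sum.inr i => Sum.inl (Sum.inr i)
  left_inv := by
    rintro ((i | i) | i) <;> rfl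
  right_inv := by
    rintro ((i | i) | i) <;> rfl

theorem reord_blocks (m : ℕ) (A : Matrix (Fin 2) (Fin 2) Lam)
    (B : Matrix (Fin 2) (Fin 2) Lam) :
    Matrix.fromBlocks (Matrix.fromBlocks A 0 0 (1 : Matrix (Fin m) (Fin m) Lam)) 0 0 B =
      (Matrix.fromBlocks (Matrix.fromBlocks A 0 0 B) 0 0
        (1 : Matrix (Fin m) (Fin m) Lam)).submatrix (reord m) (reord m) := by
  ext1 i j
  rcases i with (i | i) | i <;> rcases j with (j | j) | j <;> rfl

theorem F_stable (m n : ℕ) : Isometric (oplus (F m n) H2)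
    (oplus (1 : Matrix (Fin (2 + m)) (Fin (2 + m)) Lam) H2) := by
  have h := Pool.Agent.H38.RK.gg_stable (11 ^ n)
  have h1 := Pool.Agent.H38.RK.Isom.sum Pool.Agent.H38.HT.inv h
    (Pool.Agent.H38.RK.Isom.refl Pool.Agent.H38.HT.inv (1 : Matrix (Fin m) (Fin m) Lam))
  have h2 := (Pool.Agent.H38.RK.Isom.reindex Pool.Agent.H38.HT.inv (reord m) _).trans
    (h1.trans (Pool.Agent.H38.RK.Isom.reindex Pool.Agent.H38.HT.inv (reord m) _).symm)
  rw [← reord_blocks, ← reord_blocks] at h2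
  have h3 := Pool.Agent.H38.RK.Isom.sum Pool.Agent.H38.HT.inv (F_isom m n)
    (Pool.Agent.H38.RK.Isom.refl Pool.Agent.H38.HT.inv H2)
  have h4 := Pool.Agent.H38.RK.Isom.sum Pool.Agent.H38.HT.inv (one_isom m)
    (Pool.Agent.H38.RK.Isom.refl Pool.Agent.H38.HT.inv H2)
  exact h3.trans (h2.trans h4.symm)

theorem pow_pos' (n : ℕ) : 1 ≤ 11 ^ n := Nat.one_le_pow _ _ (by norm_num)

theorem F_not_one (m n : ℕ) :
    ¬ Isometric (F m n) (1 : Matrix (Fin (2 + m)) (Fin (2 + m)) Lam) := by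
  intro h
  have h1 := (Pool.Agent.H38.RK.Isom.symm (F_isom m n)).trans
    (Pool.Agent.H38.RK.Isom.trans h (one_isom m))
  exact Pool.Agent.H38.RK.not_isom_one (pow_pos' n)
    (Pool.Agent.H38.RK.cancel (pow_pos' n) _ h1)

theorem F_not_isom_lt (k m n : ℕ) (hmn : m < n) : ¬ Isometric (F k m) (F k n) := by
  intro h
  have h1 := (Pool.Agent.H38.RK.Isom.symm (F_isom k m)).trans
    (Pool.Agent.H38.RK.Isom.trans h (F_isom k n))
  have h2 := Pool.Agent.H38.RK.cancel (pow_pos' m) _ h1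
  have h3 : (11 : ℕ) ^ n = 11 ^ m * 11 ^ (n - m) := by
    rw [← pow_add]
    congr 1
    omega
  have h4 : 11 ≤ 11 ^ (n - m) := by
    calc 11 = 11 ^ 1 := by norm_num
      _ ≤ 11 ^ (n - m) := Nat.pow_le_pow_right (by norm_num) (by omega)
  unfold F2 at h2
  rw [h3] at h2
  exact Pool.Agent.H38.RK.not_isom (pow_pos' m) h4 h2

theorem F_not_isom (k m n : ℕ) (hmn : m ≠ n) : ¬ Isometric (F k m) (F k n) := by
  rcases Nat.lt_or_gt_of_ne hmn with h | h
  · exact F_not_isom_lt k m n h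
  · intro h1
    exact F_not_isom_lt k n m h (Pool.Agent.H38.RK.Isom.symm h1)

/-- For every `k ≥ 2` there are infinitely many pairwise non-isometric unimodular Hermitian forms
`L n` of rank `k` over `Λ` such that the augmentation of `L n` is isometric to the standard form
`<1>^k` over `ℤ`, such that `L n + H₂` is isometric to `<1>^k + H₂`, and such that `L n` is not
isometric to `<1>^k`. -/
theorem result (k : ℕ) (hk : 2 ≤ k) : ∃ L : ℕ → Matrix (Fin k) (Fin k) Lam,
    (∀ n, IsHermitianForm (L n) ∧ IsUnit (L n).det ∧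
      IsometricZ ((L n).map aug) (1 : Matrix (Fin k) (Fin k) ℤ) ∧
      Isometric (oplus (L n) H2) (oplus (1 : Matrix (Fin k) (Fin k) Lam) H2) ∧
      ¬ Isometric (L n) (1 : Matrix (Fin k) (Fin k) Lam)) ∧
    ∀ m n, m ≠ n → ¬ Isometric (L m) (L n) := by
  obtain ⟨m, rfl⟩ := Nat.exists_eq_add_of_le hk
  exact ⟨F m, fun n => ⟨F_herm m n, F_unit m n, F_aug m n, F_stable m n, F_not_one m n⟩,
    fun a b hab => F_not_isom m a b hab⟩

end Pool.Agent.Results.MP_436001_gt.InfinitelyManyForms
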